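import Pool.Agent.U145.HK.Conv

/-!
# Uniform PI and QL bounds do not imply convergence of the heat kernels

The spaces are `X_N = (ℝ, |·|, (3/2 + cos(2π(N+1)x)/2) dx)` and the limit is
`X = (ℝ, |·|, (3/2) dx)`, as in the starting result `NotMosco`; the embeddings into `Z = ℝ` are the
identity.
-/

set_option autoImplicit false

open MeasureTheory Filter Topology Set Metric
open scoped ENNReal NNReal Real
open Pool.Agent.N288.MM Pool.Agent.U145.HK

namespace Pool.Agent.Results.MP_a99579_gt.HeatKernels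

/-- the pmGH convergence `(ℝ, w_N dx) → (ℝ, (3/2) dx)` -/
noncomputable def conv : PMGH (fun N => line (wN N) (wN_weight N)) (line wI wI_weight)
    (fun _ => (0 : ℝ)) (0 : ℝ) where
  Z := ℝ
  ι := fun _ x => x
  κ := fun x => x
  iso_ι := fun _ => isometry_id
  iso_κ := isometry_id
  base := tendsto_const_nhds
  haus₁ := fun R ε _ hε => Eventually.of_forall fun i y _ => ⟨y, by
    show dist (y : ℝ) y < ε
    rw [dist_self]; exact hε⟩
  haus₂ := fun R ε _ hε => Eventually.of_forall fun i y _ => ⟨y, by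
    show dist (y : ℝ) y < ε
    rw [dist_self]; exact hε⟩
  weak := fun _ hψ => weak_int (cbs_integrable hψ)

/-- Q2: there is a pmGH convergent sequence of infinitesimally Hilbertian spaces, with a uniform
local doubling and Poincaré inequality and with a uniform quantitative Lipschitz (QL) bound for
harmonic functions, all satisfied by the limit space too, whose heat kernels do not converge to the
heat kernel of the limit. -/
theorem result : ∃ (S : ℕ → Space) (T : Space) (s : ∀ i, (S i).X) (t : T.X) (P : PMGH S T s t)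
    (cv cp ch : ℝ → ℝ) (Λ : ℝ),
    1 ≤ Λ ∧ (∀ R, 0 < R → 1 ≤ cv R ∧ 1 ≤ cp R ∧ 1 ≤ ch R) ∧
    (∀ i, IH (S i) ∧ PI (S i) cv cp Λ ∧ QL (S i) ch) ∧
    (IH T ∧ PI T cv cp Λ ∧ QL T ch) ∧
    ∀ (p : ∀ i, ℝ → (S i).X → (S i).X → ℝ) (q : ℝ → T.X → T.X → ℝ),
      (∀ i, IsHeatKernel (S i) (p i)) → IsHeatKernel T q → ¬ HeatConv P p q := by
  refine ⟨_, _, _, _, conv, fun _ => 4, fun _ => 3, fun _ => 128, 1, le_rfl,
    fun R _ => ⟨by norm_num, by norm_num, by norm_num⟩,
    fun i => ⟨line_IH _, line_PI _, QL_line _⟩, ⟨line_IH _, line_PI _, QL_line _⟩,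
    fun p q hp hq hc => ?_⟩
  exact no_conv (fun N => hkw (wN_weight N) (hp N)) (hkw wI_weight hq)
    fun r hr x y x0 y0 hx hy => hc r hr x y x0 y0 hx hy

end Pool.Agent.Results.MP_a99579_gt.HeatKernels
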